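import Pool.Agent.N602.PCFinal
import Pool.Agent.N800.PC.Final

/-!
# Planted clique: degree `O(log² n)` polynomials succeed below the spectral threshold

The statistic for detection counts cliques on `t = Θ(log n)` vertices which are transversal to a
partition of (most of) the vertex set into `t` blocks. For recovery of the membership of vertex `1`
we use `f_A + f_B - f_{A ∪ B}`, where `f_A` counts transversal cliques through vertex `1` and `A`,
`B` are two disjoint groups of blocks: this combination kills the first-order fluctuation of the
block sizes.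

In the definition of strong separation we also require that the two means are different for all
large `n` (otherwise the zero polynomial would do, as `0 = o(0)`).

Author: helper602 (whole proof); helper800 added the condition on the means
(`Pool.Agent.N800.PC.Final`).
-/

open Filter Asymptotics Pool.Agent.N602.PC

namespace Pool.Agent.Results.MP_d47e79_lc.CliqueCounts

/-- Some sequence of polynomials of degree at most `D n` strongly separates the planted from the null
distribution: for all large `n` the two means are different, and the square root of the larger one of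
the two variances is of smaller order than their distance. -/
def StronglySeparates (k : ℕ → ℝ) (D : ℕ → ℕ) : Prop :=
  ∃ f : ∀ n : ℕ, MvPolynomial (Edge n) ℝ, (∀ n, (f n).totalDegree ≤ D n) ∧
    (∀ᶠ n in atTop, meanP (k n) (f n) ≠ meanQ (f n)) ∧
    (fun n => Real.sqrt (max (varP (k n) (f n)) (varQ (f n)))) =o[atTop]
      (fun n => |meanP (k n) (f n) - meanQ (f n)|)

/-- Degree `D` succeeds: strong separation, and the minimum mean square error is `o(1/n)`. -/
def Succeeds (k : ℕ → ℝ) (D : ℕ → ℕ) : Prop :=
  StronglySeparates k D ∧
    (fun n => MMSE n (k n) (D n)) =o[atTop] (fun n : ℕ => (1 : ℝ) / n)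

/-- There is an absolute constant `C` such that for every constant `a > 0` and every
`k = Θ(n^a)` with `0 ≤ k ≤ n`, degree `⌈C log² n⌉` succeeds: some polynomial of this degree strongly
separates the planted clique distribution from `G(n,1/2)`, and the minimum mean square error of
estimating whether vertex `1` is in the planted set is `o(1/n)`. -/
theorem result : ∃ C : ℝ, ∀ a : ℝ, 0 < a → ∀ k : ℕ → ℝ, (∀ n, 0 ≤ k n ∧ k n ≤ n) →
    (k =Θ[atTop] fun n : ℕ => (n : ℝ) ^ a) →
    Succeeds k (fun n => ⌈C * Real.log n ^ 2⌉₊) := by
  refine ⟨10000, fun a ha k hk hΘ => ?_⟩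
  have hlo : (fun n : ℕ => Real.log n ^ 4) =o[atTop] (fun n : ℕ => (n:ℝ) ^ a) := by
    have h := (isLittleO_log_rpow_rpow_atTop (4:ℝ) ha).comp_tendsto tendsto_natCast_atTop_atTop
    refine h.congr (fun n => ?_) (fun n => rfl)
    simp only [Function.comp]
    norm_cast
  have hlo' : (fun n : ℕ => Real.log n ^ 4) =o[atTop] k := hlo.trans_isBigO hΘ.2
  have hone : (fun _ : ℕ => (1:ℝ)) =o[atTop] k := by
    refine IsLittleO.trans_isBigO ?_ hΘ.2
    rw [isLittleO_const_left]
    right
    have : Tendsto (fun n : ℕ => (n:ℝ) ^ a) atTop atTop :=
      (tendsto_rpow_atTop ha).comp tendsto_natCast_atTop_atTop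
    exact tendsto_norm_atTop_atTop.comp this
  have hk1 : ∀ᶠ n in atTop, 1 ≤ k n := by
    filter_upwards [hone.bound (by norm_num : (0:ℝ) < 1)] with n hn
    rw [Real.norm_of_nonneg (hk n).1] at hn
    simpa using hn
  exact ⟨Pool.Agent.N800.PC.sep k (fun n => (hk n).1) (fun n => (hk n).2)
      hlo'.tendsto_div_nhds_zero hk1,
    (main k (fun n => (hk n).1) (fun n => (hk n).2) hlo'.tendsto_div_nhds_zero hk1).2⟩

end Pool.Agent.Results.MP_d47e79_lc.CliqueCounts
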